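import Pool.Agent.Work.MP_4c1522_ag.Finite

/-!
# No toric surface maps to a smooth double solid with branch surface of degree at least six

A convex lattice polygon `P` with vertices `v 0, …, v (r - 1)` determines the projective toric
surface `S` of its normal fan, with an ample line bundle `L`. The global sections of `L ^ k` are
the Laurent polynomials supported in `k P`. The surface is covered by one affine chart for each
vertex `v i`; the functions on this chart are the Laurent polynomials supported in the cone
spanned by `P - v i`, and the monomial of `v i` generates `L` there.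

A double solid is a threefold `X` with equation `w ^ 2 = F (x₀, x₁, x₂, x₃)` in the weighted
projective space `P(1, 1, 1, 1, b)`, where `F` is homogeneous of degree `2 b`. A morphism from
`S` to `X` which pulls `O(1)` back to `L` is given by sections `x₀, …, x₃` of `L` which generate
`L` on every chart and a section `w` of `L ^ b` such that `w ^ 2 = F (x₀, x₁, x₂, x₃)`.
-/

open MvPolynomial

namespace Pool.Agent.Results.MP_4c1522_ag.NoToricSurface

/-- Laurent polynomials in two variables with complex coefficients: the functions on the torus -/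
abbrev Laurent : Type := AddMonoidAlgebra ℂ (ℤ × ℤ)

/-- the determinant of two vectors in the plane -/
def det (a b : ℤ × ℤ) : ℤ := a.1 * b.2 - a.2 * b.1

/-- `v 0, …, v (r - 1)` are the vertices, in counterclockwise order, of a convex polygon: there
are at least three, and every vertex which is not an end of the edge `[v e, v (e + 1)]` lies
strictly to the left of it -/
structure IsPolygon {r : ℕ} (v : ZMod r → ℤ × ℤ) : Prop where
  three : 3 ≤ r
  left : ∀ e j, j ≠ e → j ≠ e + 1 → 0 < det (v (e + 1) - v e) (v j - v e)

variable {r : ℕ} (v : ZMod r → ℤ × ℤ)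

/-- `f` is a section of the `k`-th power of the line bundle of the polygon `P`: every exponent
of `f` lies in `k P`, that is, to the left of (or on) every edge of `k P` -/
def IsSection (k : ℕ) (f : Laurent) : Prop :=
  ∀ m, f.coeff m ≠ 0 → ∀ e, 0 ≤ det (v (e + 1) - v e) (m - k • v e)

/-- `f` is a regular function on the chart of the vertex `v i`: every exponent of `f` lies in
the cone spanned by `P - v i`, that is, to the left of the two edges at `v i` -/
def IsRegular (i : ZMod r) (f : Laurent) : Prop :=
  ∀ m, f.coeff m ≠ 0 → 0 ≤ det (v (i + 1) - v i) m ∧ 0 ≤ det (v i - v (i - 1)) m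

/-- `(x₀, …, x₃, w)` is a morphism from the toric surface of the polygon to the double solid
`w ^ 2 = F (x₀, …, x₃)` which pulls `O(1)` back to the line bundle of the polygon -/
structure IsMorphism (b : ℕ) (F : MvPolynomial (Fin 4) ℂ) (x : Fin 4 → Laurent) (w : Laurent) :
    Prop where
  section_x : ∀ j, IsSection v 1 (x j)
  section_w : IsSection v b w
  generate : ∀ i, ∃ a : Fin 4 → Laurent, (∀ j, IsRegular v i (a j)) ∧
    ∑ j, a j * x j = AddMonoidAlgebra.single (v i) 1
  equation : w ^ 2 = aeval x F

/-- **No toric surface maps to a smooth double solid of degree `2 b ≥ 6`.** -/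
theorem result (b : ℕ) (hb : 3 ≤ b) (F : MvPolynomial (Fin 4) ℂ) (hF : F.IsHomogeneous (2 * b))
    (smooth : ∀ p : Fin 4 → ℂ, (∀ j, eval p (pderiv j F) = 0) → p = 0)
    {r : ℕ} (v : ZMod r → ℤ × ℤ) (hv : IsPolygon v) :
    ¬ ∃ (x : Fin 4 → Laurent) (w : Laurent), IsMorphism v b F x w := by
  rintro ⟨x, w, h⟩
  obtain ⟨β, rfl⟩ : ∃ β, b = β + 3 := ⟨b - 3, by omega⟩
  have hv' : DoubleSolid.IsPolygon v := ⟨hv.three, hv.left⟩
  have hreg : ∀ i f, IsRegular v i f → f ∈ DoubleSolid.alg (DoubleSolid.cone v i i) := by
    intro i f hf m hm e he _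
    obtain ⟨h1, h2⟩ := hf m hm
    rcases he with rfl | rfl
    · exact h1
    · rw [add_sub_cancel_right] at h2
      exact h2
  have hgen : ∀ i, ∃ a : Fin 4 → Laurent, (∀ j, a j ∈ DoubleSolid.alg (DoubleSolid.cone v i i)) ∧
      ∑ j, a j * x j = AddMonoidAlgebra.single (v i) 1 := fun i => by
    obtain ⟨a, ha, ha'⟩ := h.generate i
    exact ⟨a, fun j => hreg i _ (ha j), ha'⟩
  exact DoubleSolid.exists_J_ne_zero hv' x hgen fun i j k =>
    DoubleSolid.toric_J v hv' β F hF smooth x w h.section_x h.section_w hgen h.equation i j k

end Pool.Agent.Results.MP_4c1522_ag.NoToricSurface
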