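import Pool.Agent.Work.MP_4c1522_ag.General

/-!
# The cohomological obstruction for a surface in a double solid

An integral separated scheme `S` over `ℂ` with function field `K` and an affine open cover is
described by the coordinate rings `A i ⊆ K` of the charts; the coordinate ring of the
intersection of two charts is `A i ⊔ A j`, the subalgebra generated by `A i` and `A j`. A line
bundle `L` on `S` is given by generators `u i ∈ K` on the charts, and its sections on a chart are
the elements of `A i * u i`. The sheaf of 2-forms (modulo torsion) is the sheaf whose sections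
on a chart are the `A i`-submodule of the 2-forms of `K` spanned by the `da ∧ db` with
`a, b ∈ A i`. For a smooth surface this is the canonical sheaf `ω`.
-/

open MvPolynomial

namespace Pool.Agent.Results.MP_4c1522_ag.SurfaceCohomology

/-- the 2-forms of the function field `K` over `ℂ`, as functions of two vector fields of `K` -/
abbrev Forms (K : Type) [Field K] [Algebra ℂ K] : Type :=
  Derivation ℂ K K → Derivation ℂ K K → K

variable {K : Type} [Field K] [Algebra ℂ K] {ι : Type}

/-- the 2-form `da ∧ db` -/
noncomputable def twoForm (a b : K) : Forms K := fun D E => D a * E b - E a * D b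

/-- `η` is a regular 2-form on the affine scheme with coordinate ring `A ⊆ K`: it lies in the
`A`-submodule spanned by the `da ∧ db` with `a, b ∈ A` -/
def IsRegular (A : Subalgebra ℂ K) (η : Forms K) : Prop :=
  η ∈ Submodule.span A {ζ : Forms K | ∃ a ∈ A, ∃ b ∈ A, ζ = twoForm a b}

/-- the charts `A i` of a scheme with function field `K` and the local generators `u i` of a line
bundle `L`; on the intersection of two charts they differ by a unit -/
structure Charts (K : Type) [Field K] [Algebra ℂ K] (ι : Type) where
  /-- the coordinate rings of the charts -/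
  A : ι → Subalgebra ℂ K
  /-- the local generators of `L` -/
  u : ι → Kˣ
  /-- the transition functions -/
  trans : ∀ i j, (u i : K) / (u j : K) ∈ A i ⊔ A j

variable (S : Charts K ι)

/-- `η` is a section of `ω ⊗ L ^ (-N)` on the chart `i` -/
def IsForm (N : ℕ) (i : ι) (η : Forms K) : Prop :=
  IsRegular (S.A i) (((S.u i : K) ^ N) • η)

/-- `η` is a section of `ω ⊗ L ^ (-N)` on the intersection of the charts `i` and `j` -/
def IsForm₂ (N : ℕ) (i j : ι) (η : Forms K) : Prop :=
  IsRegular (S.A i ⊔ S.A j) (((S.u i : K) ^ N) • η)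

/-- `n` is a 1-cocycle with values in `ω ⊗ L ^ (-N)` for the cover by the charts -/
def IsCocycle (N : ℕ) (n : ι → ι → Forms K) : Prop :=
  (∀ i j, IsForm₂ S N i j (n i j)) ∧ ∀ i j l, n i j + n j l = n i l

/-- `n` is a 1-coboundary with values in `ω ⊗ L ^ (-N)` for the cover by the charts -/
def IsCoboundary (N : ℕ) (n : ι → ι → Forms K) : Prop :=
  ∃ c : ι → Forms K, (∀ i, IsForm S N i (c i)) ∧ ∀ i j, n i j = c i - c j

/-- there is no nonzero global section of `ω` -/
def NoGlobalForm : Prop := ∀ η : Forms K, (∀ i, IsForm S 0 i η) → η = 0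

/-- the map with homogeneous coordinates `x₀, …, x₃` is generically finite on its image: two of
the functions `x i / x k` have `d (x i / x k) ∧ d (x j / x k) ≠ 0` -/
def GenericallyFinite (x : Fin 4 → K) : Prop :=
  ∃ i j k, x k ≠ 0 ∧ twoForm (x i / x k) (x j / x k) ≠ 0

/-- the sections `x₀, …, x₃` of `L`, generating `L` on every chart, and `w` of `L ^ b` with
`w ^ 2 = F (x₀, …, x₃)` are a morphism from `S` to the double solid with equation
`w ^ 2 = F (x₀, …, x₃)` in `P(1, 1, 1, 1, b)` which pulls `O(1)` back to `L` -/
structure IsMorphism (b : ℕ) (F : MvPolynomial (Fin 4) ℂ) (x : Fin 4 → K) (w : K) : Prop where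
  section_x : ∀ i j, x j / (S.u i : K) ∈ S.A i
  section_w : ∀ i, w / (S.u i : K) ^ b ∈ S.A i
  generate : ∀ i, ∃ a : Fin 4 → K, (∀ j, a j ∈ S.A i) ∧ ∑ j, a j * x j = S.u i
  equation : w ^ 2 = aeval x F

/-- `w • n`, the product of a cochain with a section -/
noncomputable def mulCochain (w : K) (n : ι → ι → Forms K) (i j : ι) : Forms K := w • n i j

/-- **The cohomological obstruction**: multiplication by `w` from `H¹(S, ω ⊗ L ^ (-(3b - 4)))` to
`H¹(S, ω ⊗ L ^ (-(2b - 4)))` is not injective. -/
theorem result (b : ℕ) (hb : 3 ≤ b) (F : MvPolynomial (Fin 4) ℂ) (hF : F.IsHomogeneous (2 * b))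
    (smooth : ∀ p : Fin 4 → ℂ, (∀ j, eval p (pderiv j F) = 0) → p = 0)
    (S : Charts K ι) (x : Fin 4 → K) (w : K) (hf : IsMorphism S b F x w)
    (finite : GenericallyFinite x) (genus : NoGlobalForm S) :
    ∃ n : ι → ι → Forms K, IsCocycle S (3 * b - 4) n ∧
      IsCoboundary S (2 * b - 4) (mulCochain w n) ∧ ¬ IsCoboundary S (3 * b - 4) n := by
  obtain ⟨n, h1, h2, h3, h4⟩ := DoubleSolid.general (DoubleSolid.formsBiDer K) S.A S.u S.trans b hb F hF smooth x w
    hf.section_x hf.section_w hf.generate hf.equation
    (fun η h => genus η fun i => by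
      show IsRegular (S.A i) (((S.u i : K) ^ 0) • η)
      rw [pow_zero, one_smul]
      exact h i) finite
  exact ⟨n, ⟨h1, h2⟩, h3, h4⟩

end Pool.Agent.Results.MP_4c1522_ag.SurfaceCohomology
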