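import Pool.Agent.Work.MP_4c1522_ag.VeryLift

/-!
# Surfaces in very general quintic fourfolds are special

An integral separated smooth surface `S` over `ℂ` with function field `K` and an affine open cover
is described by the coordinate rings `A i ⊆ K` of the charts, smooth `ℂ`-algebras with field of
fractions `K`; the coordinate ring of the intersection of two charts is `A i ⊔ A j`. A line bundle
`L` on `S` is given by generators `u i ∈ K` on the charts. The canonical sheaf `ω` is the sheaf
whose sections on a chart are the `A i`-submodule of the 2-forms of `K` spanned by the `da ∧ db`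
with `a, b ∈ A i`. A morphism from `S` to the hypersurface `F = 0` in `ℙ⁵` which pulls `O(1)`
back to `L` is given by sections `x₀, …, x₅` of `L` without common zeros with `F (x₀, …, x₅) = 0`.
-/

open MvPolynomial

namespace Pool.Agent.Results.MP_4c1522_ag.VeryGeneral

/-- `F` is a quintic form in six variables with smooth hypersurface `X`: a smooth quintic
fourfold -/
structure IsQuinticFourfold (F : MvPolynomial (Fin 6) ℂ) : Prop where
  homogeneous : F.IsHomogeneous 5
  smooth : ∀ p : Fin 6 → ℂ, (∀ j, eval p (pderiv j F) = 0) → p = 0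

/-- `F` is very general: the 252 coefficients of the quintic form `F` are algebraically
independent over `ℚ` -/
def IsVeryGeneral (F : MvPolynomial (Fin 6) ℂ) : Prop :=
  AlgebraicIndependent ℚ (fun m : {m : Fin 6 →₀ ℕ // m.degree = 5} => coeff m.1 F)

/-- the 2-forms of the function field `K` over `ℂ`, as functions of two vector fields of `K` -/
abbrev Forms (K : Type) [Field K] [Algebra ℂ K] : Type :=
  Derivation ℂ K K → Derivation ℂ K K → K

variable {K : Type} [Field K] [Algebra ℂ K] {ι : Type}

/-- the 2-form `da ∧ db` -/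
noncomputable def twoForm (a b : K) : Forms K := fun D E => D a * E b - E a * D b

/-- `η` is a regular 2-form on the affine scheme with coordinate ring `A ⊆ K`: it lies in the
`A`-submodule spanned by the `da ∧ db` with `a, b ∈ A` -/
def IsRegular (A : Subalgebra ℂ K) (η : Forms K) : Prop :=
  η ∈ Submodule.span A {ζ : Forms K | ∃ a ∈ A, ∃ b ∈ A, ζ = twoForm a b}

/-- a smooth surface with function field `K` and a line bundle `L`: the charts `A i` and the
local generators `u i` of `L` -/
structure Surface (K : Type) [Field K] [Algebra ℂ K] (ι : Type) where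
  /-- the coordinate rings of the charts -/
  A : ι → Subalgebra ℂ K
  /-- the local generators of `L` -/
  u : ι → Kˣ
  /-- the transition functions -/
  trans : ∀ i j, (u i : K) / (u j : K) ∈ A i ⊔ A j
  /-- the charts are open in `S` -/
  frac : ∀ i, IsFractionRing (A i) K
  /-- the charts are smooth -/
  smooth : ∀ i, Algebra.FormallySmooth ℂ (A i)
  /-- the dimension is two -/
  dim : Algebra.trdeg ℂ K = 2

variable (S : Surface K ι)

/-- `η` is a section of `ω ⊗ L ^ (-N)` on the chart `i` -/
def IsForm (N : ℕ) (i : ι) (η : Forms K) : Prop :=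
  IsRegular (S.A i) (((S.u i : K) ^ N) • η)

/-- `η` is a section of `ω ⊗ L ^ (-N)` on the intersection of the charts `i` and `j` -/
def IsForm₂ (N : ℕ) (i j : ι) (η : Forms K) : Prop :=
  IsRegular (S.A i ⊔ S.A j) (((S.u i : K) ^ N) • η)

/-- `H⁰(S, ω ⊗ L ^ (-N)) = 0` -/
def VanishingH0 (N : ℕ) : Prop := ∀ η : Forms K, (∀ i, IsForm S N i η) → η = 0

/-- `H¹(S, ω ⊗ L ^ (-N)) = 0`: every 1-cocycle with values in `ω ⊗ L ^ (-N)` for the cover by the
charts is a coboundary -/
def VanishingH1 (N : ℕ) : Prop :=
  ∀ n : ι → ι → Forms K, (∀ i j, IsForm₂ S N i j (n i j)) → (∀ i j l, n i j + n j l = n i l) →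
    ∃ c : ι → Forms K, (∀ i, IsForm S N i (c i)) ∧ ∀ i j, n i j = c i - c j

/-- the sections `x₀, …, x₅` of `L`, generating `L` on every chart, are a morphism from `S` to
the hypersurface `F = 0` in `ℙ⁵` which pulls `O(1)` back to `L` -/
structure IsMorphism (F : MvPolynomial (Fin 6) ℂ) (x : Fin 6 → K) : Prop where
  section_x : ∀ i j, x j / (S.u i : K) ∈ S.A i
  generate : ∀ i, ∃ a : Fin 6 → K, (∀ j, a j ∈ S.A i) ∧ ∑ j, a j * x j = S.u i
  equation : aeval x F = 0

/-- the map with homogeneous coordinates `x₀, …, x₅` is generically finite on its image: two of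
the functions `x i / x k` have `d (x i / x k) ∧ d (x j / x k) ≠ 0` -/
def GenericallyFinite (x : Fin 6 → K) : Prop :=
  ∃ i j k, x k ≠ 0 ∧ twoForm (x i / x k) (x j / x k) ≠ 0

/-- **A very general quintic fourfold contains no surface with `H⁰(ω ⊗ L⁻¹) = 0` and
`H¹(ω ⊗ L⁻³) = 0`.** -/
theorem result (F : MvPolynomial (Fin 6) ℂ) (hF : IsQuinticFourfold F) (general : IsVeryGeneral F)
    (S : Surface K ι) (x : Fin 6 → K) (hf : IsMorphism S F x) (finite : GenericallyFinite x)
    (h0 : VanishingH0 S 1) : ¬ VanishingH1 S 3 := by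
  intro h1
  have hgen : (IndexOne.surfCover S.A S.u).Gen x := by
    refine ⟨fun i j => ?_, hf.generate⟩
    have h1 : (((S.u i)⁻¹ : Kˣ) : K) * x j = x j / (S.u i : K) := by
      rw [Units.val_inv_eq_inv_val, mul_comm, div_eq_mul_inv]
    show (((S.u i)⁻¹ : Kˣ) : K) * x j ∈ S.A i
    rw [h1]
    exact hf.section_x i j
  exact IndexOne.surface_absent ℚ hF.homogeneous hF.smooth
    (IndexOne.movable_of_indep F hF.homogeneous general) S.A S.u S.trans S.frac S.smooth S.dim x
    hgen hf.equation finite h0 h1

end Pool.Agent.Results.MP_4c1522_ag.VeryGeneral
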